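import Mathlib

set_option autoImplicit false

namespace Pool.Agent.Results.MP_836f85_an.Quad

open Set

/-- B-splines by the Cox–de Boor recursion: `B ξ p i` has degree `p` and knots
`ξ i, …, ξ (i + p + 1)` (indices start at `0`). -/
noncomputable def B (ξ : ℕ → ℝ) : ℕ → ℕ → ℝ → ℝ
  | 0, i, x => if ξ i ≤ x ∧ x < ξ (i + 1) then 1 else 0
  | p + 1, i, x => (x - ξ i) / (ξ (i + p + 1) - ξ i) * B ξ p i x +
      (ξ (i + p + 2) - x) / (ξ (i + p + 2) - ξ (i + 1)) * B ξ p (i + 1) x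

/-- Uniform knots. -/
noncomputable def kn (i : ℕ) : ℝ := 2 * i - 7

/-- The four cubic pieces on `[-1, 1]`. -/
noncomputable def pc (i : Fin 4) (x : ℝ) : ℝ :=
  ![(1 - x) ^ 3 / 48, (3 * x ^ 3 - 3 * x ^ 2 - 15 * x + 23) / 48,
    (-3 * x ^ 3 - 3 * x ^ 2 + 15 * x + 23) / 48, (1 + x) ^ 3 / 48] i

theorem B_eq (i : Fin 4) (x : ℝ) (h1 : -1 ≤ x) (h2 : x ≤ 1) : B kn 3 i x = pc i x := by
  rcases h2.eq_or_lt with rfl | h2
  · fin_cases i <;> norm_num [B, kn, pc]
  · have h : ∀ j : ℕ, B kn 0 j x = if j = 3 then 1 else 0 := fun j => by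
      refine if_congr ⟨fun ⟨a, b⟩ => ?_, ?_⟩ rfl rfl
      · simp only [kn, Nat.cast_add, Nat.cast_one] at a b
        have h3 : (j : ℝ) < (4 : ℕ) := by push_cast; linarith
        have h4 : ((2 : ℕ) : ℝ) < j := by push_cast; linarith
        rw [Nat.cast_lt] at h3 h4
        omega
      · rintro rfl
        norm_num [kn]
        exact ⟨h1, h2⟩
    have e : ∀ p j, B kn (p + 1) j x = (x - kn j) / (kn (j + p + 1) - kn j) * B kn p j x +
      (kn (j + p + 2) - x) / (kn (j + p + 2) - kn (j + 1)) * B kn p (j + 1) x := fun _ _ => rfl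
    fin_cases i <;> simp only [e, h] <;> norm_num [kn, pc] <;> ring

theorem result : ∃ (p n : ℕ) (ξ : ℕ → ℝ) (x w a : Fin n → ℝ) (M : ℝ),
    1 ≤ p ∧ StrictMono ξ ∧ StrictMono x ∧ (∀ i, x i ∈ Icc (ξ p) (ξ n)) ∧
    (∀ i : Fin n, 0 < B ξ p i (x i)) ∧
    (∀ i : Fin n, ∑ k, w k * B ξ p i (x k) = ∫ y in ξ p..ξ n, B ξ p i y) ∧
    (∀ i : Fin n, ∑ j, a j * B ξ p j (x i) = (-1) ^ (i : ℕ)) ∧
    (∀ y ∈ Icc (ξ p) (ξ n), |∑ j, a j * B ξ p j y| ≤ M) ∧
    M * ∫ _ in ξ p..ξ n, (1 : ℝ) < ∑ k, |w k| := by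
  have k3 : kn 3 = -1 := by norm_num [kn]
  have k4 : kn 4 = 1 := by norm_num [kn]
  have hx : ∀ i : Fin 4, -1 ≤ ![(-1 : ℝ), -3 / 4, 3 / 4, 1] i ∧ ![(-1 : ℝ), -3 / 4, 3 / 4, 1] i ≤ 1 :=
    fun i => by fin_cases i <;> norm_num
  refine ⟨3, 4, kn, ![-1, -3 / 4, 3 / 4, 1], ![-11 / 21, 32 / 21, 32 / 21, -11 / 21],
    ![67, -61 / 3, 61 / 3, -67], 2, by norm_num, fun i j h => ?_, ?_, by rw [k3, k4]; exact hx, fun i => ?_,
    fun i => ?_, fun i => ?_, fun y hy => ?_, ?_⟩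
  · have : (i : ℝ) < j := by exact_mod_cast h
    unfold kn
    linarith
  · refine Fin.strictMono_iff_lt_succ.2 fun i => ?_
    fin_cases i <;> simp <;> norm_num
  · rw [B_eq _ _ (hx i).1 (hx i).2]
    fin_cases i <;> norm_num [pc]
  · simp only [fun k => B_eq i _ (hx k).1 (hx k).2]
    rw [k3, k4, intervalIntegral.integral_congr (g := pc i) fun y hy => by
      rw [uIcc_of_le (by norm_num)] at hy
      exact B_eq i y hy.1 hy.2]
    have key : ∀ a b c d : ℝ, ∫ y in (-1 : ℝ)..1, (a + b * y + c * y ^ 2 + d * y ^ 3) =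
        2 * a + 2 / 3 * c := fun a b c d => by
      rw [intervalIntegral.integral_eq_sub_of_hasDerivAt
        (f := fun y => a * y + b * (y ^ 2 / 2) + c * (y ^ 3 / 3) + d * (y ^ 4 / 4))
        (fun y _ => ?_) (Continuous.intervalIntegrable (by fun_prop) _ _)]
      · ring
      · convert ((((hasDerivAt_id' y).const_mul a).add
          (((hasDerivAt_pow 2 y).div_const 2).const_mul b)).add
          (((hasDerivAt_pow 3 y).div_const 3).const_mul c)).add
          (((hasDerivAt_pow 4 y).div_const 4).const_mul d) using 1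
        · rfl
        · norm_num
    fin_cases i
    · rw [intervalIntegral.integral_congr (fun y _ => ?_), key (1 / 48) (-3 / 48) (3 / 48) (-1 / 48)]
      · norm_num [pc, Fin.sum_univ_succ]
      · simp [pc]; ring
    · rw [intervalIntegral.integral_congr (fun y _ => ?_),
        key (23 / 48) (-15 / 48) (-3 / 48) (3 / 48)]
      · norm_num [pc, Fin.sum_univ_succ]
      · simp [pc]; ring
    · rw [intervalIntegral.integral_congr (fun y _ => ?_),
        key (23 / 48) (15 / 48) (-3 / 48) (-3 / 48)]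
      · norm_num [pc, Fin.sum_univ_succ]
      · simp [pc]; ring
    · rw [intervalIntegral.integral_congr (fun y _ => ?_), key (1 / 48) (3 / 48) (3 / 48) (1 / 48)]
      · norm_num [pc, Fin.sum_univ_succ]
      · simp [pc]; ring
  · simp only [fun j => B_eq j _ (hx i).1 (hx i).2]
    fin_cases i <;> norm_num [pc, Fin.sum_univ_succ]
  · rw [k3, k4] at hy
    simp only [fun j => B_eq j _ hy.1 hy.2]
    have : ∑ j, ![(67 : ℝ), -61 / 3, 61 / 3, -67] j * pc j y = 13 / 3 * y - 16 / 3 * y ^ 3 := by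
      simp [pc, Fin.sum_univ_succ]
      ring
    rw [this, abs_le]
    constructor <;> nlinarith [hy.1, hy.2, mul_nonneg (sub_nonneg.2 hy.2) (sq_nonneg (y + 1 / 2)),
      mul_nonneg (sub_nonneg.2 hy.1) (sq_nonneg (y - 1 / 2))]
  · rw [k3, k4]
    norm_num [Fin.sum_univ_succ, abs_div]

end Pool.Agent.Results.MP_836f85_an.Quad
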